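import Mathlib
import Pool.Agent.Y58.HT.Stm

/-!
# Groups fixing a point or a pair of points of the projective line are virtually solvable
-/

set_option autoImplicit false

universe u

namespace Pool.Agent.Y288.HT

open Matrix H361P Pool.Agent.Y58.HT
open scoped MatrixGroups LinearAlgebra.Projectivization

variable {K : Type u} [Field K]

/-- The upper triangular matrices. -/
def Bor (K : Type u) [Field K] : Subgroup (GL (Fin 2) K) where
  carrier := {m | m.val 1 0 = 0}
  mul_mem' := by
    intro a b ha hb
    change a.val 1 0 = 0 at ha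
    change b.val 1 0 = 0 at hb
    change (a * b).val 1 0 = 0
    rw [Units.val_mul, Matrix.mul_apply, Fin.sum_univ_two, ha, hb]
    ring
  one_mem' := by
    change (1 : GL (Fin 2) K).val 1 0 = 0
    simp
  inv_mem' := by
    intro a ha
    change a.val 1 0 = 0 at ha
    change (a⁻¹).val 1 0 = 0
    have h1 : a.val * (a⁻¹).val = 1 := by
      rw [← Units.val_mul, mul_inv_cancel, Units.val_one]
    have h2 := congrFun (congrFun h1 1) 0
    rw [Matrix.mul_apply, Fin.sum_univ_two, ha, zero_mul, zero_add] at h2
    simp only [Matrix.one_apply_ne (show (1 : Fin 2) ≠ 0 by decide)] at h2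
    rcases mul_eq_zero.1 h2 with h3 | h3
    · have h4 : a.val.det = 0 := by
        rw [Matrix.det_fin_two, ha, h3]
        ring
      exact absurd h4 a.det_ne_zero
    · exact h3

/-- The diagonal entries. -/
def dg (K : Type u) [Field K] : Bor K →* K × K where
  toFun m := (m.1.val 0 0, m.1.val 1 1)
  map_one' := by simp
  map_mul' := by
    intro a b
    have ha : a.1.val 1 0 = 0 := a.2
    have hb : b.1.val 1 0 = 0 := b.2
    have h1 : (a * b).1.val = a.1.val * b.1.val := rfl
    rw [h1, Matrix.mul_apply, Matrix.mul_apply, Fin.sum_univ_two, Fin.sum_univ_two, ha, hb]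
    simp

instance solv_Bor : Group.IsSolvable (Bor K) := by
  have hk : Group.IsSolvable (dg K).toHomUnits.ker := by
    refine Group.isSolvable_of_comm ?_
    intro a b
    apply Subtype.ext
    apply Subtype.ext
    apply Units.ext
    have ha : a.1.1.val 1 0 = 0 := a.1.2
    have hb : b.1.1.val 1 0 = 0 := b.1.2
    have ha1 : (a.1.1.val 0 0, a.1.1.val 1 1) = ((1 : K), (1 : K)) := by
      have h1 : (dg K).toHomUnits a.1 = 1 := a.2
      have h2 := congrArg Units.val h1
      exact h2
    have hb1 : (b.1.1.val 0 0, b.1.1.val 1 1) = ((1 : K), (1 : K)) := by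
      have h1 : (dg K).toHomUnits b.1 = 1 := b.2
      have h2 := congrArg Units.val h1
      exact h2
    rw [Prod.mk.injEq] at ha1 hb1
    have h1 : (a * b).1.1.val = a.1.1.val * b.1.1.val := rfl
    have h2 : (b * a).1.1.val = b.1.1.val * a.1.1.val := rfl
    rw [h1, h2]
    ext i j
    fin_cases i <;> fin_cases j <;>
      simp [Matrix.mul_apply, Fin.sum_univ_two, ha, hb, ha1.1, ha1.2, hb1.1, hb1.2, add_comm]
  exact Group.isSolvable_of_ker_le_range (dg K).toHomUnits.ker.subtype (dg K).toHomUnits
    (by rw [Subgroup.range_subtype])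

/-- A group of matrices with a common eigenline is solvable. -/
lemma solv_fix (H : Subgroup (GL (Fin 2) K)) (p : ℙ K (Fin 2 → K)) (h : ∀ m ∈ H, m • p = p) :
    Group.IsSolvable H := by
  induction p using Projectivization.ind with
  | h x hx =>
    obtain ⟨g, hg⟩ := exists_gl_fst x hx
    have key : ∀ m ∈ H, g⁻¹ * m * g ∈ Bor K := by
      intro m hm
      have h1 := h m hm
      rw [Projectivization.smul_mk, Projectivization.mk_eq_mk_iff'] at h1
      obtain ⟨a, ha⟩ := h1
      have h2 : (g⁻¹ * m * g) • (![1, 0] : Fin 2 → K) = a • (![1, 0] : Fin 2 → K) := by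
        rw [mul_smul, mul_smul, hg, ← ha, smul_comm, ← hg, inv_smul_smul]
      have h3 := congrFun h2 1
      change (g⁻¹ * m * g).val 1 0 = 0
      simpa using h3
    let f : H →* Bor K :=
      { toFun := fun m => ⟨g⁻¹ * m.1 * g, key m.1 m.2⟩
        map_one' := by
          apply Subtype.ext
          simp
        map_mul' := by
          intro a b
          apply Subtype.ext
          change g⁻¹ * (a.1 * b.1) * g = (g⁻¹ * a.1 * g) * (g⁻¹ * b.1 * g)
          group }
    refine Group.isSolvable_of_isSolvable_injective (f := f) ?_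
    intro a b hab
    have h1 : g⁻¹ * a.1 * g = g⁻¹ * b.1 * g := congrArg Subtype.val hab
    apply Subtype.ext
    exact mul_left_cancel (mul_right_cancel h1)

lemma act_eq {m m' : GL (Fin 2) K} (h : ProjGenLinGroup.mk m = ProjGenLinGroup.mk m')
    (p : ℙ K (Fin 2 → K)) : m • p = m' • p := by
  obtain ⟨u, hu⟩ := ProjGenLinGroup.mk_eq_mk_iff.1 h
  rw [← hu, mul_smul, scalar_smul]

/-- The fixator of a point. -/
def Fx (G : Subgroup (PGL(2, K))) (p : ℙ K (Fin 2 → K)) : Subgroup (PGL(2, K)) :=
  (G.comap ProjGenLinGroup.mk ⊓ MulAction.stabilizer (GL (Fin 2) K) p).map ProjGenLinGroup.mk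

lemma mem_Fx {G : Subgroup (PGL(2, K))} {p : ℙ K (Fin 2 → K)} {m : GL (Fin 2) K} :
    ProjGenLinGroup.mk m ∈ Fx G p ↔ ProjGenLinGroup.mk m ∈ G ∧ m • p = p := by
  constructor
  · rintro ⟨m', ⟨h1, h2⟩, h3⟩
    refine ⟨?_, ?_⟩
    · rw [← h3]
      exact h1
    · rw [act_eq h3.symm p]
      exact h2
  · rintro ⟨h1, h2⟩
    exact ⟨m, ⟨h1, h2⟩, rfl⟩

lemma solv_Fx (G : Subgroup (PGL(2, K))) (p : ℙ K (Fin 2 → K)) : Group.IsSolvable (Fx G p) := by
  have h1 : Group.IsSolvable ((G.comap ProjGenLinGroup.mk ⊓
      MulAction.stabilizer (GL (Fin 2) K) p : Subgroup (GL (Fin 2) K))) :=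
    solv_fix _ p fun m hm => hm.2
  exact Group.isSolvable_of_surjective (MonoidHom.subgroupMap_surjective
    (ProjGenLinGroup.mk : GL (Fin 2) K →* PGL(2, K)) _)

lemma solv_FxG (G : Subgroup (PGL(2, K))) (p : ℙ K (Fin 2 → K)) :
    Group.IsSolvable ((Fx G p).subgroupOf G) := by
  have := solv_Fx G p
  let f : (Fx G p).subgroupOf G →* Fx G p :=
    { toFun := fun x => ⟨x.1.1, x.2⟩
      map_one' := rfl
      map_mul' := fun _ _ => rfl }
  refine Group.isSolvable_of_isSolvable_injective (f := f) ?_
  intro a b hab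
  apply Subtype.ext
  apply Subtype.ext
  have h1 : (f a).1 = (f b).1 := by rw [hab]
  exact h1

theorem t_elem : S_ELEM.{u} := by
  intro K _ G hG
  constructor
  · intro p
    by_contra hcon
    push Not at hcon
    apply hG
    have h1 : (Fx G p).subgroupOf G = ⊤ := by
      rw [eq_top_iff]
      intro x _
      obtain ⟨m, hm⟩ := ProjGenLinGroup.mk_surjective x.1
      change x.1 ∈ Fx G p
      rw [← hm, mem_Fx]
      have h2 : ProjGenLinGroup.mk m ∈ G := by
        rw [hm]
        exact x.2
      exact ⟨h2, hcon m h2⟩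
    refine ⟨(Fx G p).subgroupOf G, ?_, solv_FxG G p⟩
    rw [h1]
    infer_instance
  · intro p q hpq
    by_contra hcon
    push Not at hcon
    apply hG
    refine ⟨(Fx G p).subgroupOf G, ?_, solv_FxG G p⟩
    by_cases h1 : (Fx G p).subgroupOf G = ⊤
    · rw [h1]
      infer_instance
    · have h2 : ((Fx G p).subgroupOf G).index = 2 := by
        rw [Subgroup.index_eq_two_iff]
        obtain ⟨a, ha⟩ : ∃ a, a ∉ (Fx G p).subgroupOf G := by
          by_contra h3
          push Not at h3
          exact h1 (eq_top_iff.2 fun x _ => h3 x)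
        refine ⟨a, fun b => ?_⟩
        obtain ⟨m, hm⟩ := ProjGenLinGroup.mk_surjective a.1
        obtain ⟨n, hn⟩ := ProjGenLinGroup.mk_surjective b.1
        have hmG : ProjGenLinGroup.mk m ∈ G := by
          rw [hm]
          exact a.2
        have hnG : ProjGenLinGroup.mk n ∈ G := by
          rw [hn]
          exact b.2
        have ha' : m • p ≠ p := by
          intro h3
          apply ha
          change a.1 ∈ Fx G p
          rw [← hm, mem_Fx]
          exact ⟨hmG, h3⟩
        have hb' : b ∈ (Fx G p).subgroupOf G ↔ n • p = p := by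
          change b.1 ∈ Fx G p ↔ _
          rw [← hn, mem_Fx]
          exact ⟨fun h3 => h3.2, fun h3 => ⟨hnG, h3⟩⟩
        have hba : b * a ∈ (Fx G p).subgroupOf G ↔ n • (m • p) = p := by
          change b.1 * a.1 ∈ Fx G p ↔ _
          rw [← hn, ← hm, ← map_mul, mem_Fx, mul_smul]
          refine ⟨fun h3 => h3.2, fun h3 => ⟨?_, h3⟩⟩
          rw [map_mul]
          exact G.mul_mem hnG hmG
        have h5 : m • p = q := (hcon m hmG).1.resolve_left ha'
        rw [hb', hba, h5]
        obtain ⟨h6, h7⟩ := hcon n hnG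
        rcases h6 with h6 | h6
        · refine Or.inr ⟨h6, ?_⟩
          intro h8
          have h9 : n • q = n • p := h8.trans h6.symm
          exact hpq (smul_left_cancel n h9).symm
        · refine Or.inl ⟨?_, ?_⟩
          · rcases h7 with h7 | h7
            · exact h7
            · exact absurd (smul_left_cancel n (h7.trans h6.symm)).symm hpq
          · rw [h6]
            exact hpq.symm
      exact ⟨by rw [h2]; norm_num⟩

end Pool.Agent.Y288.HT
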